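import Pool.Agent.TH143.GT.Pull

/-! OG-E12: Jacobians at places, and relations between sections. -/

set_option autoImplicit false

open FF Pool.Agent.W602.GT Pool.Agent.W603.LV Pool.Agent.TH143.GT

namespace Pool.Agent.Y220.OG

section jac

variable {k K : Type} [Field k] [Field K] [Algebra k K]

/-- the Jacobian determinant -/
noncomputable def jac {d : ℕ} (t : Fin d → K) (D : Fin d → Derivation k K K) : K :=
  (Matrix.of fun i j => D i (t j)).det

theorem jac_smul {d : ℕ} (t : Fin d → K) (A : Matrix (Fin d) (Fin d) K)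
    (D : Fin d → Derivation k K K) :
    jac t (fun i => ∑ j, A i j • D j) = A.det * jac t D := by
  unfold jac
  rw [← Matrix.det_mul]
  congr 1
  ext i j
  rw [Matrix.mul_apply, Matrix.of_apply, der_sum]
  simp only [smul_eq_mul, Matrix.of_apply]

/-- regular derivations lower the order at most by one -/
theorem ge_der {P : Place k K} {D : Derivation k K K} (hD : DerReg P D) {f : K} {n : ℤ}
    (hf : Ge P n f) : Ge P (n - 1) (D f) := by
  by_cases h0 : f = 0
  · rw [h0, map_zero]
    exact Ge.zero
  have hn : n ≤ P.ord f := hf.resolve_left h0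
  obtain ⟨π, hπ0, hπ⟩ := P.surj
  obtain ⟨u, hu, hu0, -, h1⟩ := logder_eq P D hπ h0
  have h2 : D f = f * (D f / f) := by field_simp
  rw [h2, h1]
  have h3 : Ge P (-1) (D u / u) := (ge_logder_reg hD hu hu0).mono (by norm_num)
  have h4 : Ge P (-1) (D π / π) := by
    have := ge_div hπ0 (hD π (Or.inr (by rw [hπ]; norm_num)))
    rw [hπ] at this
    simpa using this
  have h5 : Ge P (-1) ((P.ord f : K) * (D π / π)) := by
    simpa using (Ge.intCast (P := P) (P.ord f)).mul h4
  have h6 := hf.mul (h3.add h5)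
  exact h6.mono (by linarith)

/-- logarithmic derivations do not lower the order -/
theorem ge_der_log {P : Place k K} {D : Derivation k K K} (hD : DerLog P D) {f : K} {n : ℤ}
    (hf : Ge P n f) : Ge P n (D f) := by
  by_cases h0 : f = 0
  · rw [h0, map_zero]
    exact Ge.zero
  have h2 : D f = f * (D f / f) := by field_simp
  rw [h2]
  simpa using hf.mul (hD f)

theorem ge_det_col (P : Place k K) {m : ℕ} (M : Matrix (Fin m) (Fin m) K) (a : Fin m → ℤ)
    (h : ∀ i j, Ge P (a j) (M i j)) : Ge P (∑ j, a j) M.det :=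
  ge_det P M _ (fun _ j => a j) h (fun _ => le_rfl)

end jac

section frame

variable {k K : Type} [Field k] [Field K] [Algebra k K]

theorem kap [CharZero k] [Algebra.EssFiniteType k K] {d : ℕ} (hd : Algebra.trdeg k K = d)
    (t : Fin d → K) (ht : IsTranscendenceBasis k t) (v : Place k K) (hv : Divisorial d v) :
    ∃ κ : ℤ,
      (∃ D : Fin d → Derivation k K K, (∀ i, DerReg v (D i)) ∧ jac t D ≠ 0 ∧
        v.ord (jac t D) = κ) ∧
      (∃ D : Fin d → Derivation k K K, (∀ i, DerLog v (D i)) ∧ jac t D ≠ 0 ∧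
        v.ord (jac t D) = κ + 1) ∧
      (∀ (L : Type) [Field L] [Algebra k L] [Algebra K L] [IsScalarTower k K L] (P : Place k L)
        (e : ℕ), Over P v e → ∀ D : Fin d → Derivation k L L,
        ((∀ i, DerReg P (D i)) → Ge P (e * κ) (jac (fun j => algebraMap K L (t j)) D) ∧
          Ge P (e * (κ + 1) - 1) (jac (fun j => algebraMap K L (t j)) D)) ∧
        ((∀ i, DerLog P (D i)) →
          Ge P (e * (κ + 1)) (jac (fun j => algebraMap K L (t j)) D))) := by
  classical
  obtain ⟨y', E', i0, hb', hE', hi0, hy'r, hpres⟩ := Pool.Agent.W240.PG.Frame.main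
    Pool.Agent.W762.PG.main k K d hd (fun y hy => fin_adjoin y hy) v hv
  have h' : Dual y' E' := ⟨hb', hE'⟩
  have hy0 : y' i0 ≠ 0 := by
    intro h0
    rw [h0, v.ord_zero] at hi0
    omega
  -- the Jacobian in the frame
  have hjac : ∀ (L : Type) [Field L] [Algebra k L] [Algebra K L] [IsScalarTower k K L]
      (D : Fin d → Derivation k L L), jac (fun j => algebraMap K L (t j)) D =
        (Matrix.of fun i l => D i (algebraMap K L (y' l))).det *
          algebraMap K L (jac t E') := by
    intro L _ _ _ _ D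
    unfold jac
    rw [RingHom.map_det, ← Matrix.det_mul]
    congr 1
    ext i j
    rw [Matrix.mul_apply, Matrix.of_apply, h'.chain (D i) (t j)]
    rfl
  have hne : jac t E' ≠ 0 := by
    choose Et hEt using fun i => exists_der t ht (fun j => if i = j then (1 : K) else 0)
    have h1 : jac t Et = 1 := by
      unfold jac
      have h2 : (Matrix.of fun i j => Et i (t j)) = (1 : Matrix (Fin d) (Fin d) K) := by
        ext i j
        rw [Matrix.of_apply, hEt, Matrix.one_apply]
      rw [h2, Matrix.det_one]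
    have h2 := hjac K Et
    have h3 : (fun j => algebraMap K K (t j)) = t := rfl
    rw [h3, h1] at h2
    intro h4
    rw [h4, map_zero, mul_zero] at h2
    exact one_ne_zero h2
  refine ⟨v.ord (jac t E'), ⟨E', hpres, hne, rfl⟩, ?_, ?_⟩
  · let s : Fin d → K := fun j => if j = i0 then y' i0 else 1
    have hsp : ∏ j, s j = y' i0 := by
      simp only [s]
      rw [Finset.prod_ite_eq' Finset.univ i0 (fun _ => y' i0), if_pos (Finset.mem_univ _)]
    have hj : jac t (fun j => s j • E' j) = y' i0 * jac t E' := by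
      unfold jac
      rw [← hsp, ← Matrix.det_mul_column]
      rfl
    refine ⟨fun j => s j • E' j, fun j => ?_, ?_, ?_⟩
    · have hp1 : DerReg v (s j • E' j) := by
        intro g hg
        change v.Reg (s j * E' j g)
        refine v.reg_mul ?_ (hpres j g hg)
        simp only [s]
        split_ifs
        · exact Or.inr (by rw [hi0]; norm_num)
        · exact v.reg_one
      refine pl_log hp1 hi0 ?_
      change v.Reg (s j * E' j (y' i0) / y' i0)
      rw [hE']
      by_cases hj : j = i0
      · rw [if_pos hj, mul_one]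
        simp only [s, if_pos hj]
        rw [div_self hy0]
        exact v.reg_one
      · rw [if_neg hj, mul_zero, zero_div]
        exact v.reg_zero
    · rw [hj]
      exact mul_ne_zero hy0 hne
    · rw [hj, v.ord_mul hy0 hne, hi0]
      ring
  · intro L _ _ _ _ P e hov D
    have he : (0 : ℤ) < e := by exact_mod_cast hov.1
    have hr' : ∀ j, Ge P 0 (algebraMap K L (y' j)) := fun j => hov.reg.2 (hy'r j)
    have hr0 : Ge P e (algebraMap K L (y' i0)) := by
      right
      rw [hov.2, hi0, mul_one]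
    have hJ : Ge P (e * v.ord (jac t E')) (algebraMap K L (jac t E')) := by
      right
      rw [hov.2]
    have hsum : ∀ a : ℤ, ∑ j : Fin d, (if j = i0 then a else 0) = a := by
      intro a
      rw [Finset.sum_ite_eq' Finset.univ i0 (fun _ => a), if_pos (Finset.mem_univ _)]
    have key : ∀ a : ℤ, (∀ i j, Ge P (if j = i0 then a else 0) (D i (algebraMap K L (y' j)))) →
        Ge P (a + e * v.ord (jac t E')) (jac (fun j => algebraMap K L (t j)) D) := by
      intro a h1
      rw [hjac L D]
      have h2 := ge_det_col P (Matrix.of fun i l => D i (algebraMap K L (y' l)))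
        (fun j => if j = i0 then a else 0) h1
      rw [hsum] at h2
      exact h2.mul hJ
    refine ⟨fun hD => ⟨?_, ?_⟩, fun hD => ?_⟩
    · have := key 0 (fun i j => by
        simp only [ite_self]
        exact hD i _ (hr' j))
      simpa using this
    · have := key (e - 1) (fun i j => by
        split_ifs with h1
        · rw [h1]
          exact ge_der (hD i) hr0
        · exact hD i _ (hr' j))
      exact this.mono (by linarith)
    · have := key e (fun i j => by
        split_ifs with h1
        · rw [h1]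
          exact ge_der_log (hD i) hr0
        · exact ge_der_log (hD i) (hr' j))
      exact this.mono (by linarith)

end frame

section relations

variable {k K : Type} [Field k] [Field K] [Algebra k K]

/-- sections of weight `a` -/
def Bdd {d : ℕ} (f : Fin (d + 1) → K) (a : ℕ) (z : K) : Prop :=
  ∀ (v : Place k K) (c : ℤ), (∀ j, Ge v (-c) (f j)) → Ge v (-(a * c)) z

theorem Bdd.mul {d : ℕ} {f : Fin (d + 1) → K} {a b : ℕ} {x y : K} (hx : Bdd (k := k) f a x)
    (hy : Bdd (k := k) f b y) : Bdd (k := k) f (a + b) (x * y) := by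
  intro v c h
  have := (hx v c h).mul (hy v c h)
  convert this using 1
  push_cast
  ring

theorem Bdd.add {d : ℕ} {f : Fin (d + 1) → K} {a : ℕ} {x y : K} (hx : Bdd (k := k) f a x)
    (hy : Bdd (k := k) f a y) : Bdd (k := k) f a (x + y) :=
  fun v c h => (hx v c h).add (hy v c h)

theorem Bdd.one {d : ℕ} {f : Fin (d + 1) → K} : Bdd (k := k) f 0 1 := by
  intro v c _
  simpa using Ge.one (P := v)

theorem bdd_frac {d : ℕ} {f : Fin (d + 1) → K} (hf : f 0 ≠ 0) {z : K}
    (hz : z ∈ IntermediateField.adjoin k (Set.range fun i : Fin d => f i.succ / f 0)) :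
    ∃ (a : ℕ) (h : K), h ≠ 0 ∧ Bdd (k := k) f a h ∧ Bdd (k := k) f a (h * z) := by
  induction hz using IntermediateField.adjoin_induction with
  | mem x hx =>
    obtain ⟨i, rfl⟩ := hx
    refine ⟨1, f 0, hf, fun v c h => ?_, fun v c h => ?_⟩
    · simpa using h 0
    · have h1 : f 0 * (f i.succ / f 0) = f i.succ := by field_simp
      simp only [h1]
      simpa using h i.succ
  | algebraMap x =>
    refine ⟨0, 1, one_ne_zero, Bdd.one, fun v c _ => ?_⟩
    simpa using Ge.const (P := v) x
  | add x y _ _ ihx ihy =>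
    obtain ⟨a, h, h0, h1, h2⟩ := ihx
    obtain ⟨a', h', h0', h1', h2'⟩ := ihy
    refine ⟨a + a', h * h', mul_ne_zero h0 h0', h1.mul h1', ?_⟩
    have e : h * h' * (x + y) = (h * x) * h' + h * (h' * y) := by ring
    rw [e]
    exact (h2.mul h1').add (h1.mul h2')
  | inv x _ ihx =>
    obtain ⟨a, h, h0, h1, h2⟩ := ihx
    by_cases hx : x = 0
    · refine ⟨0, 1, one_ne_zero, Bdd.one, fun v c _ => ?_⟩
      rw [hx, inv_zero, mul_zero]
      exact Ge.zero
    · refine ⟨a, h * x, mul_ne_zero h0 hx, h2, ?_⟩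
      have e : h * x * x⁻¹ = h := by field_simp
      rw [e]
      exact h1
  | mul x y _ _ ihx ihy =>
    obtain ⟨a, h, h0, h1, h2⟩ := ihx
    obtain ⟨a', h', h0', h1', h2'⟩ := ihy
    refine ⟨a + a', h * h', mul_ne_zero h0 h0', h1.mul h1', ?_⟩
    have e : h * h' * (x * y) = (h * x) * (h' * y) := by ring
    rw [e]
    exact h2.mul h2'

theorem bdd_common {d : ℕ} {f : Fin (d + 1) → K} (hf : f 0 ≠ 0) (c : ℕ → K)
    (hc : ∀ l, c l ∈ IntermediateField.adjoin k (Set.range fun i : Fin d => f i.succ / f 0))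
    (m : ℕ) : ∃ (a : ℕ) (h : K), h ≠ 0 ∧ Bdd (k := k) f a h ∧
      ∀ l < m, Bdd (k := k) f a (h * c l) := by
  induction m with
  | zero => exact ⟨0, 1, one_ne_zero, Bdd.one, fun l hl => absurd hl (Nat.not_lt_zero l)⟩
  | succ m ih =>
    obtain ⟨a, h, h0, h1, h2⟩ := ih
    obtain ⟨a', h', h0', h1', h2'⟩ := bdd_frac hf (hc m)
    refine ⟨a + a', h * h', mul_ne_zero h0 h0', h1.mul h1', fun l hl => ?_⟩
    rcases Nat.lt_succ_iff_lt_or_eq.1 hl with hl | rfl
    · have e : h * h' * c l = (h * c l) * h' := by ring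
      rw [e]
      exact (h2 l hl).mul h1'
    · have e : h * h' * c l = h * (h' * c l) := by ring
      rw [e]
      exact h1.mul h2'

theorem rel_half {d : ℕ} {f : Fin (d + 1) → K} (hf : f 0 ≠ 0) {t : K} (ht : t ≠ 0)
    (halg : IsAlgebraic (IntermediateField.adjoin k (Set.range fun i : Fin d => f i.succ / f 0)) t) :
    ∃ (a : ℕ) (η : K), η ≠ 0 ∧ Bdd (k := k) f a η ∧ ∀ (v : Place k K) (c : ℤ),
      (∀ j, Ge v (-c) (f j)) → 0 ≤ v.ord t → Ge v (-(a * c) + v.ord t) η := by
  set K1 := IntermediateField.adjoin k (Set.range fun i : Fin d => f i.succ / f 0) with hK1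
  set p := minpoly K1 t with hp
  have hint : IsIntegral K1 t := halg.isIntegral
  have hc0 : p.coeff 0 ≠ 0 := minpoly.coeff_zero_ne_zero hint ht
  obtain ⟨a, h, h0, h1, h2⟩ := bdd_common (k := k) hf (fun l => ((p.coeff l : K1) : K))
    (fun l => (p.coeff l).2) (p.natDegree + 2)
  have hc0' : ((p.coeff 0 : K1) : K) ≠ 0 := fun h3 => hc0 (Subtype.ext h3)
  refine ⟨a, h * (p.coeff 0 : K1), mul_ne_zero h0 hc0', h2 0 (by omega), fun v c hj hv => ?_⟩
  have h3 : Polynomial.aeval t p = 0 := minpoly.aeval K1 t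
  rw [← Polynomial.divX_mul_X_add p, map_add, map_mul, Polynomial.aeval_X, Polynomial.aeval_C] at h3
  have h4 : ((p.coeff 0 : K1) : K) = -(Polynomial.aeval t p.divX * t) := by
    have : algebraMap K1 K (p.coeff 0) = ((p.coeff 0 : K1) : K) := rfl
    rw [← this]
    linear_combination h3
  have h5 : Ge v (-(a * c)) (h * Polynomial.aeval t p.divX) := by
    rw [Polynomial.aeval_eq_sum_range, Finset.mul_sum]
    refine Ge.sum _ _ fun l hl => ?_
    rw [Polynomial.coeff_divX, Algebra.smul_def]
    have h6 : Ge v 0 (t ^ l) := by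
      have h7 : Ge v 0 t := Or.inr hv
      simpa using h7.pow l
    have h8 : l + 1 < p.natDegree + 2 := by
      have h9 := Finset.mem_range.1 hl
      have h10 := Polynomial.natDegree_divX_eq_natDegree_tsub_one (p := p)
      omega
    have h11 := (h2 (l + 1) h8 v c hj).mul h6
    rw [add_zero] at h11
    have e : h * (algebraMap K1 K (p.coeff (l + 1)) * t ^ l) =
        h * ((p.coeff (l + 1) : K1) : K) * t ^ l := by
      rw [mul_assoc]
      rfl
    rw [e]
    exact h11
  rw [h4]
  have h6 : h * -(Polynomial.aeval t p.divX * t) = -(h * Polynomial.aeval t p.divX * t) := by ring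
  rw [h6]
  exact (h5.mul (ge_ord v t)).neg

theorem rel_one {d : ℕ} {f : Fin (d + 1) → K} (hf : f 0 ≠ 0) {t : K} (ht : t ≠ 0)
    (halg : IsAlgebraic (IntermediateField.adjoin k (Set.range fun i : Fin d => f i.succ / f 0)) t) :
    ∃ (a : ℕ) (η : K), η ≠ 0 ∧ Bdd (k := k) f a η ∧ ∀ (v : Place k K) (c : ℤ),
      (∀ j, Ge v (-c) (f j)) → Ge v (-(a * c) + |v.ord t|) η := by
  obtain ⟨a, η, h0, h1, h2⟩ := rel_half (k := k) hf ht halg
  obtain ⟨a', η', h0', h1', h2'⟩ := rel_half (k := k) hf (inv_ne_zero ht) halg.inv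
  refine ⟨a + a', η * η', mul_ne_zero h0 h0', h1.mul h1', fun v c hj => ?_⟩
  rcases le_total 0 (v.ord t) with h3 | h3
  · have h4 := (h2 v c hj h3).mul (h1' v c hj)
    refine h4.mono ?_
    rw [abs_of_nonneg h3]
    push_cast
    linarith
  · have h4 := (h1 v c hj).mul (h2' v c hj (by rw [v.ord_inv]; linarith))
    refine h4.mono ?_
    rw [abs_of_nonpos h3, v.ord_inv]
    push_cast
    linarith

theorem rel_all {d : ℕ} {f : Fin (d + 1) → K} (hf : f 0 ≠ 0) {n : ℕ} (t : Fin n → K)
    (ht : ∀ i, t i ≠ 0)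
    (halg : ∀ i, IsAlgebraic
      (IntermediateField.adjoin k (Set.range fun i : Fin d => f i.succ / f 0)) (t i)) :
    ∃ (a : ℕ) (η : K), η ≠ 0 ∧ ∀ (v : Place k K) (c : ℤ),
      (∀ j, Ge v (-c) (f j)) → Ge v (-(a * c)) η ∧ ∀ i, Ge v (-(a * c) + |v.ord (t i)|) η := by
  classical
  choose a η h0 h1 h2 using fun i => rel_one (k := k) hf (ht i) (halg i)
  refine ⟨∑ i, a i, ∏ i, η i, Finset.prod_ne_zero_iff.2 fun i _ => h0 i, fun v c hj => ⟨?_, ?_⟩⟩
  · have h3 := Ge.prod (P := v) Finset.univ η (fun i => -(a i * c)) (fun i _ => h1 i v c hj)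
    convert h3 using 1
    rw [Finset.sum_neg_distrib, ← Finset.sum_mul]
    push_cast
    rfl
  · intro i0
    have h3 := Ge.prod (P := v) Finset.univ η
      (fun i => -(a i * c) + if i = i0 then |v.ord (t i0)| else 0) (fun i _ => by
        split_ifs with h4
        · rw [h4]
          exact h2 i0 v c hj
        · rw [add_zero]
          exact h1 i v c hj)
    convert h3 using 1
    rw [Finset.sum_add_distrib, Finset.sum_neg_distrib, ← Finset.sum_mul,
      Finset.sum_ite_eq' Finset.univ i0 (fun _ => |v.ord (t i0)|), if_pos (Finset.mem_univ _)]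
    push_cast
    rfl

end relations

end Pool.Agent.Y220.OG
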