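import Pool.Agent.TH152.AC.Farkas

/-! OG-E4: rational convex combinations. -/

set_option autoImplicit false

namespace Pool.Agent.Y220.OG

open Finset

/-- common denominators -/
theorem den_ex {ι : Type*} [Fintype ι] (w : ι → ℚ) :
    ∃ d : ℕ, 0 < d ∧ ∃ z : ι → ℤ, ∀ i, (z i : ℚ) = d * w i := by
  classical
  refine ⟨∏ j, (w j).den, Finset.prod_pos fun j _ => (w j).pos,
    fun i => (w i).num * ∏ j ∈ univ.erase i, ((w j).den : ℤ), fun i => ?_⟩
  rw [← Finset.mul_prod_erase univ (fun j => (w j).den) (mem_univ i)]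
  push_cast
  have h : ((w i).num : ℚ) = (w i).den * w i := (Rat.den_mul_eq_num (w i)).symm
  rw [h]
  ring

/-- the statement `St_conv` -/
theorem conv_core (b : ℕ) (T : Finset (Fin b → ℤ)) (c : Fin b → ℤ) (e : ℕ)
    (h : ∀ w : Fin b → ℤ, ∃ t ∈ T, (e : ℤ) * ∑ i, w i * t i ≤ ∑ i, w i * c i) :
    ∃ p : ℕ, 1 ≤ p ∧ ∃ t : Fin (p * e) → Fin b → ℤ, (∀ l, t l ∈ T) ∧ (p : ℤ) • c = ∑ l, t l := by
  classical
  -- the functionals
  let m := T.card
  let τ : Fin m → Fin b → ℤ := fun k => (T.equivFin.symm k).1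
  have hτ : ∀ k, τ k ∈ T := fun k => (T.equivFin.symm k).2
  let ip : (Fin b → ℤ) → ((Fin b → ℚ) × ℚ) →ₗ[ℚ] ℚ := fun t =>
    (∑ i, (t i : ℚ) • (LinearMap.proj i : (Fin b → ℚ) →ₗ[ℚ] ℚ)).comp (LinearMap.fst ℚ _ ℚ)
  have hip : ∀ t x, ip t x = ∑ i, x.1 i * t i := by
    intro t x
    simp [ip, mul_comm]
  have key := Pool.Agent.TH152.AC.farkas_q m
    (fun k => LinearMap.snd ℚ (Fin b → ℚ) ℚ - (e : ℚ) • ip (τ k))
    (LinearMap.snd ℚ (Fin b → ℚ) ℚ - ip c) (by
      intro x hx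
      obtain ⟨d, hd, z, hz⟩ := den_ex x.1
      obtain ⟨t, ht, hle⟩ := h z
      obtain ⟨k, hk⟩ : ∃ k, τ k = t := ⟨T.equivFin ⟨t, ht⟩, by simp [τ]⟩
      have h1 := hx k
      simp only [LinearMap.sub_apply, LinearMap.smul_apply, LinearMap.snd_apply, hip,
        smul_eq_mul, hk] at h1 ⊢
      have hd' : (0:ℚ) < d := by exact_mod_cast hd
      have h2 : (e : ℚ) * ∑ i, (z i : ℚ) * t i ≤ ∑ i, (z i : ℚ) * c i := by exact_mod_cast hle
      have h3 : ∀ s : Fin b → ℤ, ∑ i, (z i : ℚ) * s i = d * ∑ i, x.1 i * s i := by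
        intro s
        rw [mul_sum]
        refine sum_congr rfl fun i _ => ?_
        rw [hz]
        ring
      rw [h3, h3] at h2
      have h4 : (e : ℚ) * ∑ i, x.1 i * t i ≤ ∑ i, x.1 i * c i := by
        have h5 : (d : ℚ) * ((e : ℚ) * ∑ i, x.1 i * t i) ≤ d * ∑ i, x.1 i * c i := by
          calc (d : ℚ) * ((e : ℚ) * ∑ i, x.1 i * t i) =
                (e : ℚ) * (d * ∑ i, x.1 i * t i) := by ring
            _ ≤ _ := h2
        exact le_of_mul_le_mul_left h5 hd'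
      linarith)
  obtain ⟨lam, hlam0, hlam⟩ := key
  -- the two identities
  have hsum : ∑ k, lam k = 1 := by
    have h1 := hlam (0, 1)
    simp only [LinearMap.sub_apply, LinearMap.smul_apply, LinearMap.snd_apply, hip,
      smul_eq_mul, Pi.zero_apply, zero_mul, sum_const_zero, mul_zero, sub_zero, mul_one] at h1
    exact h1.symm
  have hc : ∀ i, (c i : ℚ) = e * ∑ k, lam k * τ k i := by
    intro i
    have h1 := hlam (Pi.single i 1, 0)
    simp only [LinearMap.sub_apply, LinearMap.smul_apply, LinearMap.snd_apply, hip,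
      smul_eq_mul, zero_sub, mul_neg, sum_neg_distrib, neg_inj] at h1
    have h2 : ∀ s : Fin b → ℤ, ∑ j, (Pi.single i (1:ℚ) : Fin b → ℚ) j * s j = s i := by
      intro s
      rw [Finset.sum_eq_single i]
      · simp
      · intro j _ hj
        rw [Pi.single_eq_of_ne hj, zero_mul]
      · intro hh
        exact absurd (mem_univ i) hh
    rw [h2] at h1
    rw [h1, mul_sum]
    refine sum_congr rfl fun k _ => ?_
    rw [h2]
    ring
  obtain ⟨p, hp, z, hz⟩ := den_ex lam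
  have hp' : (0:ℚ) < p := by exact_mod_cast hp
  have hz0 : ∀ k, 0 ≤ z k := by
    intro k
    have h1 : (0:ℚ) ≤ z k := by
      rw [hz]
      exact mul_nonneg hp'.le (hlam0 k)
    exact_mod_cast h1
  obtain ⟨n, hn⟩ : ∃ n : Fin m → ℕ, ∀ k, (n k : ℤ) = z k :=
    ⟨fun k => (z k).toNat, fun k => Int.toNat_of_nonneg (hz0 k)⟩
  have hnq : ∀ k, (n k : ℚ) = p * lam k := by
    intro k
    rw [← hz, ← hn]
    push_cast
    rfl
  have hns : ∑ k, n k = p := by
    have h1 : ((∑ k, n k : ℕ) : ℚ) = p := by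
      push_cast
      rw [sum_congr rfl (fun k _ => hnq k), ← mul_sum, hsum, mul_one]
    exact_mod_cast h1
  refine ⟨p, hp, ?_⟩
  have hcard : Fintype.card (Fin (p * e)) = Fintype.card (Σ k : Fin m, Fin (e * n k)) := by
    simp only [Fintype.card_sigma, Fintype.card_fin]
    rw [← mul_sum, hns, mul_comm]
  let E := Fintype.equivOfCardEq hcard
  refine ⟨fun l => τ (E l).1, fun l => hτ _, ?_⟩
  have h1 : ∑ l, τ (E l).1 = ∑ x : (Σ k : Fin m, Fin (e * n k)), τ x.1 :=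
    Equiv.sum_comp E (fun x => τ x.1)
  rw [h1, Fintype.sum_sigma]
  simp only [sum_const, card_univ, Fintype.card_fin]
  funext i
  have h2 : ((p : ℤ) • c) i = (p : ℤ) * c i := by simp
  rw [h2, Finset.sum_apply]
  have h3 : ((p : ℤ) * c i : ℚ) = ∑ k, ((e * n k : ℕ) : ℚ) * (τ k i : ℚ) := by
    push_cast
    rw [hc i]
    rw [mul_sum, mul_sum]
    refine sum_congr rfl fun k _ => ?_
    rw [hnq k]
    ring
  have h4 : ∀ k, ((e * n k) • τ k) i = ((e * n k : ℕ) : ℤ) * τ k i := by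
    intro k
    simp
  rw [sum_congr rfl (fun k _ => h4 k)]
  exact_mod_cast h3

end Pool.Agent.Y220.OG
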