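import Pool.Agent.Y192.OG.StE
import Pool.Agent.Y220.OG.ConvA

/-! OG-E4: rational convex combinations. -/

set_option autoImplicit false

namespace Pool.Agent.Y220.OG

theorem t_conv : Pool.Agent.Y192.OG.St_conv :=
  fun b T c e _ _ h => conv_core b T c e h

end Pool.Agent.Y220.OG
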